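import Pool.Agent.NXL.Edge

/-! The large component of the Margulis graph after removal of few vertices. -/

set_option autoImplicit false

namespace Pool.Agent.SYM

open Pool.Agent.NXL

/-- adjacency in the Margulis graph -/
def Adj {N : ℕ} (a b : Vt N) : Prop := ∃ j : Fin 4, b = T j a ∨ a = T j b

/-- one step outside `X` -/
def Stp {N : ℕ} (X : Finset (Vt N)) (a b : Vt N) : Prop := a ∉ X ∧ b ∉ X ∧ Adj a b

theorem Adj.symm {N : ℕ} {a b : Vt N} (h : Adj a b) : Adj b a := by
  obtain ⟨j, hj⟩ := h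
  exact ⟨j, hj.symm⟩

theorem Stp.symm {N : ℕ} {X : Finset (Vt N)} {a b : Vt N} (h : Stp X a b) : Stp X b a :=
  ⟨h.2.1, h.1, h.2.2.symm⟩

theorem Stp.anti {N : ℕ} {X X' : Finset (Vt N)} (hX : X ⊆ X') {a b : Vt N} (h : Stp X' a b) :
    Stp X a b :=
  ⟨fun h1 => h.1 (hX h1), fun h1 => h.2.1 (hX h1), h.2.2⟩

/-- sets outside `X` without edges to the rest outside `X` -/
def Closed {N : ℕ} (X A : Finset (Vt N)) : Prop :=
  (∀ u ∈ A, u ∉ X) ∧ ∀ u ∈ A, ∀ v, v ∉ X → Adj u v → v ∈ A

theorem bd_closed {N : ℕ} [NeZero N] (X A : Finset (Vt N)) (h : Closed X A) :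
    (bd A).card ≤ 8 * X.card := by
  classical
  have h1 : bd A ⊆ (X ×ˢ (Finset.univ : Finset (Fin 4))) ∪
      (X ×ˢ (Finset.univ : Finset (Fin 4))).image (fun p => ((T p.2).symm p.1, p.2)) := by
    intro e he
    unfold bd at he
    rw [Finset.mem_filter] at he
    rw [Finset.mem_union]
    by_cases h2 : e.1 ∈ A
    · right
      have h3 : T e.2 e.1 ∉ A := fun h4 => he.2 ⟨fun _ => h4, fun _ => h2⟩
      have h4 : T e.2 e.1 ∈ X := by
        by_contra h5
        exact h3 (h.2 _ h2 _ h5 ⟨e.2, Or.inl rfl⟩)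
      rw [Finset.mem_image]
      refine ⟨(T e.2 e.1, e.2), ?_, ?_⟩
      · simp [h4]
      · simp
    · left
      have h3 : T e.2 e.1 ∈ A := by
        by_contra h4
        exact he.2 ⟨fun h5 => absurd h5 h2, fun h5 => absurd h5 h4⟩
      have h4 : e.1 ∈ X := by
        by_contra h5
        exact h2 (h.2 _ h3 _ h5 ⟨e.2, Or.inr rfl⟩)
      simp [h4]
  have h2 := Finset.card_le_card h1
  have h3 := Finset.card_union_le (X ×ˢ (Finset.univ : Finset (Fin 4)))
    ((X ×ˢ (Finset.univ : Finset (Fin 4))).image (fun p => ((T p.2).symm p.1, p.2)))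
  have h4 : ((X ×ˢ (Finset.univ : Finset (Fin 4))).image
      (fun p => ((T p.2).symm p.1, p.2))).card ≤ (X ×ˢ (Finset.univ : Finset (Fin 4))).card :=
    Finset.card_image_le
  have h5 : (X ×ˢ (Finset.univ : Finset (Fin 4))).card = X.card * 4 := by
    rw [Finset.card_product, Finset.card_univ, Fintype.card_fin]
  omega

theorem closed_small {N : ℕ} [NeZero N] (hN : Odd N) (X A : Finset (Vt N)) (h : Closed X A)
    (h2 : 2 * A.card ≤ N ^ 2) : 7 * A.card ≤ 160 * X.card := by
  have h1 := edge_bound N hN A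
  have h3 := bd_closed X A h
  have h4 : 0 < N := NeZero.pos N
  have h5 : (0 : ℝ) < (N : ℝ) ^ 2 := by positivity
  have h6 : ((bd A).card : ℝ) ≤ 8 * (X.card : ℝ) := by exact_mod_cast h3
  have h7 : (2 : ℝ) * (A.card : ℝ) ≤ (N : ℝ) ^ 2 := by exact_mod_cast h2
  have h8 : (0 : ℝ) ≤ (A.card : ℝ) := Nat.cast_nonneg _
  have h9 : (A.card : ℝ) * ((N : ℝ) ^ 2 / 2) ≤ (A.card : ℝ) * ((N : ℝ) ^ 2 - A.card) :=
    mul_le_mul_of_nonneg_left (by linarith) h8
  have h10 : (N : ℝ) ^ 2 * (bd A).card ≤ (N : ℝ) ^ 2 * (8 * (X.card : ℝ)) :=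
    mul_le_mul_of_nonneg_left h6 h5.le
  have h11 : (N : ℝ) ^ 2 * (7 * (A.card : ℝ)) ≤ (N : ℝ) ^ 2 * (160 * (X.card : ℝ)) := by
    nlinarith
  have h12 := le_of_mul_le_mul_left h11 h5
  exact_mod_cast h12

open Classical in
/-- the component of `v` outside `X` -/
noncomputable def comp {N : ℕ} [NeZero N] (X : Finset (Vt N)) (v : Vt N) : Finset (Vt N) :=
  Finset.univ.filter fun w => Relation.ReflTransGen (Stp X) v w

theorem mem_comp {N : ℕ} [NeZero N] (X : Finset (Vt N)) (v w : Vt N) :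
    w ∈ comp X v ↔ Relation.ReflTransGen (Stp X) v w := by
  classical
  unfold comp
  simp

theorem comp_closed {N : ℕ} [NeZero N] (X : Finset (Vt N)) (v : Vt N) (hv : v ∉ X) :
    Closed X (comp X v) := by
  have h1 : ∀ u ∈ comp X v, u ∉ X := by
    intro u hu
    rw [mem_comp] at hu
    rcases Relation.ReflTransGen.cases_tail hu with h | ⟨w, _, hw⟩
    · rw [h]
      exact hv
    · exact hw.2.1
  refine ⟨h1, ?_⟩
  intro u hu w hw huw
  have h2 := h1 u hu
  rw [mem_comp] at hu ⊢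
  exact hu.tail ⟨h2, hw, huw⟩

open Classical in
/-- the vertices outside `X` whose component outside `X` contains more than half of all
vertices -/
noncomputable def Gi {N : ℕ} [NeZero N] (X : Finset (Vt N)) : Finset (Vt N) :=
  Finset.univ.filter fun v => v ∉ X ∧ N ^ 2 < 2 * (comp X v).card

theorem mem_Gi {N : ℕ} [NeZero N] (X : Finset (Vt N)) (v : Vt N) :
    v ∈ Gi X ↔ v ∉ X ∧ N ^ 2 < 2 * (comp X v).card := by
  classical
  unfold Gi
  simp

theorem Gi_not_mem {N : ℕ} [NeZero N] {X : Finset (Vt N)} {v : Vt N} (h : v ∈ Gi X) : v ∉ X :=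
  ((mem_Gi X v).1 h).1

theorem comp_anti {N : ℕ} [NeZero N] {X X' : Finset (Vt N)} (hX : X ⊆ X') (v : Vt N) :
    comp X' v ⊆ comp X v := by
  intro w hw
  rw [mem_comp] at hw ⊢
  induction hw with
  | refl => exact Relation.ReflTransGen.refl
  | tail _ hs ih => exact ih.tail (hs.anti hX)

theorem Gi_anti {N : ℕ} [NeZero N] {X X' : Finset (Vt N)} (hX : X ⊆ X') : Gi X' ⊆ Gi X := by
  intro v hv
  rw [mem_Gi] at hv ⊢
  refine ⟨fun h => hv.1 (hX h), lt_of_lt_of_le hv.2 ?_⟩
  exact Nat.mul_le_mul_left 2 (Finset.card_le_card (comp_anti hX v))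

theorem stp_symm {N : ℕ} (X : Finset (Vt N)) : ∀ a b : Vt N,
    Relation.ReflTransGen (Stp X) a b → Relation.ReflTransGen (Stp X) b a := by
  intro a b h
  induction h with
  | refl => exact Relation.ReflTransGen.refl
  | tail _ hs ih => exact Relation.ReflTransGen.head hs.symm ih

theorem card_Vt' (N : ℕ) [NeZero N] : Fintype.card (Vt N) = N ^ 2 := by
  rw [Fintype.card_prod, ZMod.card]
  ring

/-- two vertices of the large component are joined outside `X` -/
theorem Gi_conn {N : ℕ} [NeZero N] {X : Finset (Vt N)} {u v : Vt N} (hu : u ∈ Gi X)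
    (hv : v ∈ Gi X) : Relation.ReflTransGen (Stp X) u v := by
  classical
  have h1 : ¬ Disjoint (comp X u) (comp X v) := by
    intro h
    have h2 := Finset.card_union_of_disjoint h
    have h3 : (comp X u ∪ comp X v).card ≤ Fintype.card (Vt N) := Finset.card_le_univ _
    have h4 := ((mem_Gi X u).1 hu).2
    have h5 := ((mem_Gi X v).1 hv).2
    rw [card_Vt'] at h3
    omega
  rw [Finset.not_disjoint_iff] at h1
  obtain ⟨w, hw1, hw2⟩ := h1
  rw [mem_comp] at hw1 hw2
  exact hw1.trans (stp_symm X v w hw2)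

theorem Gi_step {N : ℕ} [NeZero N] {X : Finset (Vt N)} {u v : Vt N} (hu : u ∈ Gi X)
    (h : Stp X u v) : v ∈ Gi X := by
  rw [mem_Gi] at hu ⊢
  refine ⟨h.2.1, lt_of_lt_of_le hu.2 (Nat.mul_le_mul_left 2 (Finset.card_le_card ?_))⟩
  intro w hw
  rw [mem_comp] at hw ⊢
  exact (Relation.ReflTransGen.single h.symm).trans hw

/-- **The large component** exists after the removal of at most `N² / 100` vertices. -/
theorem Gi_nonempty {N : ℕ} [NeZero N] (hN : Odd N) (X : Finset (Vt N))
    (hX : 100 * X.card ≤ N ^ 2) : (Gi X).Nonempty := by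
  classical
  have hpos : 0 < N ^ 2 := pow_pos (NeZero.pos N) 2
  have hne : (Finset.univ.filter fun A : Finset (Vt N) =>
      Closed X A ∧ 2 * A.card ≤ N ^ 2).Nonempty := by
    refine ⟨∅, ?_⟩
    rw [Finset.mem_filter]
    refine ⟨Finset.mem_univ _, ⟨by simp, by simp⟩, by simp⟩
  obtain ⟨A, hA, hmax⟩ := Finset.exists_max_image _ Finset.card hne
  rw [Finset.mem_filter] at hA
  have hAs := closed_small hN X A hA.2.1 hA.2.2
  have hex : ∃ v, v ∉ A ∪ X := by
    by_contra h
    push Not at h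
    have h1 : (A ∪ X) = Finset.univ := Finset.eq_univ_iff_forall.2 h
    have h2 := Finset.card_union_le A X
    rw [h1, Finset.card_univ, card_Vt'] at h2
    omega
  obtain ⟨v, hv⟩ := hex
  rw [Finset.mem_union, not_or] at hv
  refine ⟨v, (mem_Gi X v).2 ⟨hv.2, ?_⟩⟩
  by_contra hsm
  push Not at hsm
  have hC := comp_closed X v hv.2
  have hCs := closed_small hN X _ hC hsm
  have hU : Closed X (A ∪ comp X v) := by
    refine ⟨?_, ?_⟩
    · intro u hu
      rcases Finset.mem_union.1 hu with h | h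
      · exact hA.2.1.1 u h
      · exact hC.1 u h
    · intro u hu w hw huw
      rcases Finset.mem_union.1 hu with h | h
      · exact Finset.mem_union_left _ (hA.2.1.2 u h w hw huw)
      · exact Finset.mem_union_right _ (hC.2 u h w hw huw)
  have hle := Finset.card_union_le A (comp X v)
  have hmem : (A ∪ comp X v) ∈ (Finset.univ.filter fun A : Finset (Vt N) =>
      Closed X A ∧ 2 * A.card ≤ N ^ 2) := by
    rw [Finset.mem_filter]
    refine ⟨Finset.mem_univ _, hU, ?_⟩
    omega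
  have h3 := hmax _ hmem
  have h4 : A.card < (A ∪ comp X v).card := by
    apply Finset.card_lt_card
    refine ⟨Finset.subset_union_left, ?_⟩
    intro h5
    exact hv.1 (h5 (Finset.mem_union_right _ ((mem_comp X v v).2 Relation.ReflTransGen.refl)))
  omega

end Pool.Agent.SYM
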