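import Mathlib

/-!
# Subgroups of a power of a nonabelian simple group

A subgroup `K` of `T ^ n`, `T` a finite nonabelian simple group, contains the factors `T_i` for all
`i` outside a set `B` with `2 ^ |B| ≤ [T ^ n : K]`.
-/

set_option autoImplicit false

namespace Pool.Agent.SYM

variable {T : Type*} [Group T]

/-- forget the first coordinate -/
def tl (T : Type*) [Group T] (n : ℕ) : (Fin (n + 1) → T) →* (Fin n → T) where
  toFun x i := x i.succ
  map_one' := rfl
  map_mul' _ _ := rfl

/-- the elements supported at the first coordinate -/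
def hd (T : Type*) [Group T] (n : ℕ) : T →* (Fin (n + 1) → T) where
  toFun x := Fin.cons x 1
  map_one' := by
    funext i
    refine Fin.cases ?_ (fun j => ?_) i <;> simp
  map_mul' x y := by
    funext i
    refine Fin.cases ?_ (fun j => ?_) i <;> simp

/-- an element with given first coordinate and given rest -/
def cns {n : ℕ} (a : T) (v : Fin n → T) : Fin (n + 1) → T := Fin.cons a v

lemma cns_mul {n : ℕ} (a b : T) (v w : Fin n → T) : cns a v * cns b w = cns (a * b) (v * w) := by
  funext i
  refine Fin.cases ?_ (fun j => ?_) i <;> simp [cns]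

lemma cns_inv {n : ℕ} (a : T) (v : Fin n → T) : (cns a v)⁻¹ = cns a⁻¹ v⁻¹ := by
  funext i
  refine Fin.cases ?_ (fun j => ?_) i <;> simp [cns]

lemma hd_eq {n : ℕ} (a : T) : hd T n a = cns a 1 := rfl

lemma eq_cns {n : ℕ} (k : Fin (n + 1) → T) : k = cns (k 0) (tl T n k) := by
  funext i
  refine Fin.cases ?_ (fun j => ?_) i
  · simp [cns]
  · simp [cns, tl]

lemma single_zero {n : ℕ} (x : T) : (Pi.mulSingle 0 x : Fin (n + 1) → T) = cns x 1 := by
  funext i
  refine Fin.cases ?_ (fun j => ?_) i
  · simp [cns]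
  · simp [cns]

lemma single_succ {n : ℕ} (i : Fin n) (x : T) :
    (Pi.mulSingle i.succ x : Fin (n + 1) → T) = cns 1 (Pi.mulSingle i x) := by
  funext j
  refine Fin.cases ?_ (fun j => ?_) j
  · simp [cns, Pi.mulSingle_eq_of_ne]
  · by_cases h : j = i
    · subst h
      simp [cns]
    · have h2 : j.succ ≠ i.succ := fun h3 => h (Fin.succ_injective _ h3)
      rw [Pi.mulSingle_eq_of_ne h2]
      simp [cns, Pi.mulSingle_eq_of_ne h]

section card

variable [Finite T] {n : ℕ} (K : Subgroup (Fin (n + 1) → T))

/-- the kernel of the restriction of `tl` to `K` -/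
noncomputable def kerEquiv : ((tl T n).comp K.subtype).ker ≃ K.comap (hd T n) where
  toFun x := ⟨x.1.1 0, by
    have h : tl T n x.1.1 = 1 := x.2
    have h1 : hd T n (x.1.1 0) = x.1.1 := by
      rw [hd_eq, ← h]
      exact (eq_cns x.1.1).symm
    rw [Subgroup.mem_comap, h1]
    exact x.1.2⟩
  invFun x := ⟨⟨hd T n x.1, x.2⟩, by
    rw [MonoidHom.mem_ker]
    funext i
    simp [tl, hd]⟩
  left_inv x := by
    have h : tl T n x.1.1 = 1 := x.2
    apply Subtype.ext
    apply Subtype.ext
    change hd T n (x.1.1 0) = x.1.1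
    rw [hd_eq, ← h]
    exact (eq_cns x.1.1).symm
  right_inv x := by
    apply Subtype.ext
    simp [hd]

lemma card_eq : Nat.card K = Nat.card (K.map (tl T n)) * Nat.card (K.comap (hd T n)) := by
  set f := (tl T n).comp K.subtype with hf
  rw [Subgroup.card_eq_card_quotient_mul_card_subgroup f.ker,
    Nat.card_congr (QuotientGroup.quotientKerEquivRange f).toEquiv, Nat.card_congr (kerEquiv K)]
  have : f.range = K.map (tl T n) := by
    rw [hf, ← MonoidHom.map_range, Subgroup.range_subtype]
  rw [this]

lemma index_eq : K.index = (K.map (tl T n)).index * (K.comap (hd T n)).index := by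
  have h1 := K.card_mul_index
  have h2 := (K.map (tl T n)).card_mul_index
  have h3 := (K.comap (hd T n)).card_mul_index
  have h4 : Nat.card (Fin (n + 1) → T) = Nat.card (Fin n → T) * Nat.card T := by
    rw [Nat.card_fun, Nat.card_fun, Nat.card_fin, Nat.card_fin, pow_succ]
  have h5 : 0 < Nat.card K := Nat.card_pos
  apply Nat.eq_of_mul_eq_mul_left h5
  rw [h1, h4, ← h2, ← h3, card_eq K]
  ring

end card

section main

variable [Finite T] [IsSimpleGroup T] {n : ℕ} (K : Subgroup (Fin (n + 1) → T))

/-- `K` contains the factor `i` -/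
def Has {n : ℕ} (K : Subgroup (Fin n → T)) (i : Fin n) : Prop := ∀ x : T, Pi.mulSingle i x ∈ K

variable {K}

/-- if the projection contains the factor `i`, but `K` does not, then `K` meets it trivially -/
lemma trivial_of_bad {i : Fin n} (h1 : Has (K.map (tl T n)) i) (h2 : ¬ Has K i.succ) (y : T)
    (hy : cns 1 (Pi.mulSingle i y) ∈ K) : y = 1 := by
  let N : Subgroup T := K.comap (MonoidHom.mulSingle (fun _ : Fin (n + 1) => T) i.succ)
  have hN : ∀ x, x ∈ N ↔ cns 1 (Pi.mulSingle i x) ∈ K := by
    intro x
    rw [← single_succ]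
    rfl
  have hnorm : N.Normal := by
    refine ⟨fun x hx z => ?_⟩
    rw [hN] at hx ⊢
    obtain ⟨k, hk, hkz⟩ := h1 z
    have h3 : k = cns (k 0) (Pi.mulSingle i z) := by
      rw [← hkz]
      exact eq_cns k
    have h4 : k * cns 1 (Pi.mulSingle i x) * k⁻¹ ∈ K := K.mul_mem (K.mul_mem hk hx) (K.inv_mem hk)
    have h5 : k * cns 1 (Pi.mulSingle i x) * k⁻¹ = cns 1 (Pi.mulSingle i (z * x * z⁻¹)) := by
      rw [h3, cns_inv, cns_mul, cns_mul, mul_one, mul_inv_cancel, ← Pi.mulSingle_mul,
        ← Pi.mulSingle_inv, ← Pi.mulSingle_mul]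
    rwa [h5] at h4
  rcases hnorm.eq_bot_or_eq_top with h | h
  · have : y ∈ N := (hN y).2 hy
    rw [h] at this
    exact this
  · exfalso
    apply h2
    intro x
    rw [single_succ]
    exact (hN x).1 (by rw [h]; exact Subgroup.mem_top x)

/-- then every element is the first coordinate of an element of `K` supported at `0` and `i` -/
lemma surj_of_bad {i : Fin n} (h1 : Has (K.map (tl T n)) i) (h2 : ¬ Has K i.succ) (a : T) :
    ∃ y : T, cns a (Pi.mulSingle i y) ∈ K := by
  have h3 : ∀ y : T, ∃ a : T, cns a (Pi.mulSingle i y) ∈ K := by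
    intro y
    obtain ⟨k, hk, hky⟩ := h1 y
    refine ⟨k 0, ?_⟩
    rw [← hky, ← eq_cns k]
    exact hk
  choose f hf using h3
  have hinj : Function.Injective f := by
    intro y z hyz
    have h4 : cns (f y) (Pi.mulSingle i y) * (cns (f z) (Pi.mulSingle i z))⁻¹ ∈ K :=
      K.mul_mem (hf y) (K.inv_mem (hf z))
    rw [cns_inv, cns_mul, hyz, mul_inv_cancel, ← Pi.mulSingle_inv, ← Pi.mulSingle_mul] at h4
    exact mul_inv_eq_one.1 (trivial_of_bad h1 h2 _ h4)
  obtain ⟨y, hy⟩ := (Finite.injective_iff_surjective.1 hinj) a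
  exact ⟨y, hy ▸ hf y⟩

/-- then `K` meets the factor `0` trivially -/
lemma bot_of_bad {i : Fin n} (h1 : Has (K.map (tl T n)) i) (h2 : ¬ Has K i.succ) :
    K.comap (hd T n) = ⊥ := by
  rw [Subgroup.eq_bot_iff_forall]
  intro l hl
  have hl' : cns l 1 ∈ K := hl
  have h3 : ∀ y : T, ∃ a : T, cns a (Pi.mulSingle i y) ∈ K := by
    intro y
    obtain ⟨k, hk, hky⟩ := h1 y
    refine ⟨k 0, ?_⟩
    rw [← hky, ← eq_cns k]
    exact hk
  choose f hf using h3
  have hinj : Function.Injective f := by
    intro y z hyz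
    have h4 : cns (f y) (Pi.mulSingle i y) * (cns (f z) (Pi.mulSingle i z))⁻¹ ∈ K :=
      K.mul_mem (hf y) (K.inv_mem (hf z))
    rw [cns_inv, cns_mul, hyz, mul_inv_cancel, ← Pi.mulSingle_inv, ← Pi.mulSingle_mul] at h4
    exact mul_inv_eq_one.1 (trivial_of_bad h1 h2 _ h4)
  obtain ⟨y, hy⟩ := (Finite.injective_iff_surjective.1 hinj) (f 1 * l)
  have h5 : cns (f y) (Pi.mulSingle i y) * (cns (f 1) (Pi.mulSingle i 1) * cns l 1)⁻¹ ∈ K :=
    K.mul_mem (hf y) (K.inv_mem (K.mul_mem (hf 1) hl'))
  rw [cns_mul, cns_inv, cns_mul, hy, mul_inv_cancel, Pi.mulSingle_one, mul_one, inv_one,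
    mul_one] at h5
  have h6 := trivial_of_bad h1 h2 _ h5
  subst h6
  simpa using hy.symm

/-- there is at most one such `i` -/
lemma unique_bad (hT : ∃ a b : T, a * b ≠ b * a) {i j : Fin n} (hi1 : Has (K.map (tl T n)) i)
    (hi2 : ¬ Has K i.succ) (hj1 : Has (K.map (tl T n)) j) (hj2 : ¬ Has K j.succ) : i = j := by
  by_contra hij
  obtain ⟨a, b, hab⟩ := hT
  apply hab
  obtain ⟨y, hy⟩ := surj_of_bad hi1 hi2 a
  obtain ⟨z, hz⟩ := surj_of_bad hj1 hj2 b
  have h1 : cns a (Pi.mulSingle i y) * cns b (Pi.mulSingle j z) *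
      (cns b (Pi.mulSingle j z) * cns a (Pi.mulSingle i y))⁻¹ ∈ K :=
    K.mul_mem (K.mul_mem hy hz) (K.inv_mem (K.mul_mem hz hy))
  have hc : (Pi.mulSingle i y : Fin n → T) * Pi.mulSingle j z =
      Pi.mulSingle j z * Pi.mulSingle i y :=
    (Pi.mulSingle_commute (f := fun _ : Fin n => T) hij y z)
  rw [cns_mul, cns_mul, cns_inv, cns_mul, hc, mul_inv_cancel] at h1
  have h2 : a * b * (b * a)⁻¹ ∈ K.comap (hd T n) := h1
  rw [bot_of_bad hi1 hi2, Subgroup.mem_bot] at h2
  exact mul_inv_eq_one.1 h2

lemma four_le_card (hT : ∃ a b : T, a * b ≠ b * a) : 4 ≤ Nat.card T := by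
  classical
  obtain ⟨a, b, hab⟩ := hT
  have : Fintype T := Fintype.ofFinite T
  have ha : a ≠ 1 := by rintro rfl; simp at hab
  have hb : b ≠ 1 := by rintro rfl; simp at hab
  have h1 : a ≠ b := by rintro rfl; exact hab rfl
  have h2 : a * b ≠ 1 := by
    intro h
    have : b = a⁻¹ := (inv_eq_of_mul_eq_one_right h).symm
    subst this
    simp at hab
  have h3 : a * b ≠ a := by simpa using hb
  have h4 : a * b ≠ b := by simpa using ha
  have h5 : ({1, a, b, a * b} : Finset T).card = 4 := by
    rw [Finset.card_insert_of_notMem, Finset.card_insert_of_notMem, Finset.card_insert_of_notMem,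
      Finset.card_singleton]
    · simpa using h4.symm
    · simp only [Finset.mem_insert, Finset.mem_singleton, not_or]
      exact ⟨h1, h3.symm⟩
    · simp only [Finset.mem_insert, Finset.mem_singleton, not_or]
      exact ⟨ha.symm, hb.symm, h2.symm⟩
  rw [Nat.card_eq_fintype_card, ← h5]
  exact Finset.card_le_univ _

/-- **Support lemma.** A subgroup `K` of `T ^ n` contains the factors `i ∉ B` for a set `B` with
`2 ^ |B| ≤ [T ^ n : K]`. -/
theorem support (hT : ∃ a b : T, a * b ≠ b * a) : ∀ (n : ℕ) (K : Subgroup (Fin n → T)),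
    ∃ B : Finset (Fin n), 2 ^ B.card ≤ K.index ∧ ∀ i ∉ B, ∀ x : T, Pi.mulSingle i x ∈ K := by
  classical
  intro n
  induction n with
  | zero =>
    intro K
    refine ⟨∅, ?_, fun i => i.elim0⟩
    simpa using Nat.one_le_iff_ne_zero.2 (Subgroup.index_ne_zero_of_finite (H := K))
  | succ n ih =>
    intro K
    obtain ⟨B', hB', hB'2⟩ := ih (K.map (tl T n))
    have hidx := index_eq K
    have himg : ∀ i : Fin n, i.succ ∉ B'.map (Fin.succEmb n) → i ∉ B' := by
      intro i hi h
      exact hi (Finset.mem_map_of_mem _ h)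
    by_cases hL : K.comap (hd T n) = ⊤
    · refine ⟨B'.map (Fin.succEmb n), ?_, ?_⟩
      · rw [Finset.card_map, hidx, hL, Subgroup.index_top, mul_one]
        exact hB'
      · have h0 : ∀ x : T, cns x 1 ∈ K := by
          intro x
          have : x ∈ K.comap (hd T n) := by rw [hL]; exact Subgroup.mem_top x
          exact this
        intro i
        refine Fin.cases ?_ (fun i => ?_) i
        · intro _ x
          rw [single_zero]
          exact h0 x
        · intro hi x
          obtain ⟨k, hk, hkx⟩ := hB'2 i (himg i hi) x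
          have h1 : (cns (k 0) 1)⁻¹ * k ∈ K := K.mul_mem (K.inv_mem (h0 _)) hk
          have h2 : k = cns (k 0) (Pi.mulSingle i x) := by rw [← hkx]; exact eq_cns k
          rw [h2] at h1
          rw [single_succ]
          have h3 : (cns (cns (k 0) (Pi.mulSingle i x) 0) 1)⁻¹ * cns (k 0) (Pi.mulSingle i x) =
              cns (1 : T) (Pi.mulSingle i x) := by
            rw [cns_inv, cns_mul]
            simp [cns]
          rwa [h3] at h1
    · have hL2 : 2 ≤ (K.comap (hd T n)).index := by
        have h1 : (K.comap (hd T n)).index ≠ 0 := Subgroup.index_ne_zero_of_finite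
        have h2 : (K.comap (hd T n)).index ≠ 1 := fun h => hL (Subgroup.index_eq_one.1 h)
        omega
      by_cases hbad : ∃ i : Fin n, Has (K.map (tl T n)) i ∧ ¬ Has K i.succ
      · obtain ⟨i0, hi1, hi2⟩ := hbad
        refine ⟨insert 0 (insert i0.succ (B'.map (Fin.succEmb n))), ?_, ?_⟩
        · have h1 : (insert 0 (insert i0.succ (B'.map (Fin.succEmb n)))).card ≤ B'.card + 2 := by
            refine (Finset.card_insert_le _ _).trans ?_
            have := Finset.card_insert_le i0.succ (B'.map (Fin.succEmb n))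
            rw [Finset.card_map] at this
            omega
          calc 2 ^ (insert 0 (insert i0.succ (B'.map (Fin.succEmb n)))).card
              ≤ 2 ^ (B'.card + 2) := Nat.pow_le_pow_right (by norm_num) h1
            _ = 2 ^ B'.card * 4 := by rw [pow_add]; norm_num
            _ ≤ (K.map (tl T n)).index * Nat.card T := Nat.mul_le_mul hB' (four_le_card hT)
            _ = K.index := by rw [hidx, bot_of_bad hi1 hi2, Subgroup.index_bot]
        · intro i
          refine Fin.cases ?_ (fun i => ?_) i
          · intro h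
            exact absurd (Finset.mem_insert_self _ _) h
          · intro h x
            by_contra hx
            have h1 : i ∉ B' := by
              apply himg
              intro h2
              exact h (Finset.mem_insert_of_mem (Finset.mem_insert_of_mem h2))
            have h3 : i = i0 := unique_bad hT (hB'2 i h1) (fun h4 => hx (h4 x)) hi1 hi2
            apply h
            rw [h3]
            exact Finset.mem_insert_of_mem (Finset.mem_insert_self _ _)
      · push Not at hbad
        refine ⟨insert 0 (B'.map (Fin.succEmb n)), ?_, ?_⟩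
        · have h1 : (insert 0 (B'.map (Fin.succEmb n))).card ≤ B'.card + 1 := by
            refine (Finset.card_insert_le _ _).trans ?_
            rw [Finset.card_map]
          calc 2 ^ (insert 0 (B'.map (Fin.succEmb n))).card
              ≤ 2 ^ (B'.card + 1) := Nat.pow_le_pow_right (by norm_num) h1
            _ = 2 ^ B'.card * 2 := by rw [pow_succ]
            _ ≤ (K.map (tl T n)).index * (K.comap (hd T n)).index := Nat.mul_le_mul hB' hL2
            _ = K.index := hidx.symm
        · intro i
          refine Fin.cases ?_ (fun i => ?_) i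
          · intro h
            exact absurd (Finset.mem_insert_self _ _) h
          · intro h
            have h1 : i ∉ B' := by
              apply himg
              intro h2
              exact h (Finset.mem_insert_of_mem h2)
            exact hbad i (hB'2 i h1)

/-- the support lemma for any finite index set -/
theorem support_fintype (hT : ∃ a b : T, a * b ≠ b * a) {ι : Type*} [Finite ι] [DecidableEq ι]
    (K : Subgroup (ι → T)) :
    ∃ B : Finset ι, 2 ^ B.card ≤ K.index ∧ ∀ i ∉ B, ∀ x : T, Pi.mulSingle i x ∈ K := by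
  obtain ⟨n, ⟨e⟩⟩ := Finite.exists_equiv_fin ι
  let E : (Fin n → T) ≃* (ι → T) :=
    { toFun := fun v i => v (e i)
      invFun := fun w j => w (e.symm j)
      left_inv := fun v => by funext j; simp
      right_inv := fun w => by funext i; simp
      map_mul' := fun _ _ => rfl }
  obtain ⟨B, hB, hB2⟩ := support hT n (K.comap E.toMonoidHom)
  refine ⟨B.map e.symm.toEmbedding, ?_, ?_⟩
  · rw [Finset.card_map]
    rwa [Subgroup.index_comap_of_surjective K E.surjective] at hB
  · intro i hi x
    have h1 : e i ∉ B := by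
      intro h
      apply hi
      rw [Finset.mem_map]
      exact ⟨e i, h, by simp⟩
    have h2 := hB2 (e i) h1 x
    rw [Subgroup.mem_comap] at h2
    have h3 : E.toMonoidHom (Pi.mulSingle (e i) x) = Pi.mulSingle i x := by
      funext j
      change (Pi.mulSingle (e i) x : Fin n → T) (e j) = (Pi.mulSingle i x : ι → T) j
      by_cases h : j = i
      · subst h
        simp
      · rw [Pi.mulSingle_eq_of_ne (fun h4 => h (e.injective h4)), Pi.mulSingle_eq_of_ne h]
    rwa [h3] at h2

end main

/-- the alternating group of degree five is not commutative -/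
lemma a5_noncomm : ∃ a b : alternatingGroup (Fin 5), a * b ≠ b * a := by
  refine ⟨⟨Equiv.swap 0 1 * Equiv.swap 1 2, ?_⟩, ⟨Equiv.swap 0 1 * Equiv.swap 1 3, ?_⟩, ?_⟩
  · rw [Equiv.Perm.mem_alternatingGroup, map_mul, Equiv.Perm.sign_swap (by decide),
      Equiv.Perm.sign_swap (by decide)]
    rfl
  · rw [Equiv.Perm.mem_alternatingGroup, map_mul, Equiv.Perm.sign_swap (by decide),
      Equiv.Perm.sign_swap (by decide)]
    rfl
  · intro h
    have h1 := congrArg (fun p : alternatingGroup (Fin 5) => (p : Equiv.Perm (Fin 5)) 0) h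
    revert h1
    decide

/-- **Support lemma** for `A_5 ^ ι`. -/
theorem support_a5 {ι : Type*} [Finite ι] [DecidableEq ι]
    (K : Subgroup (ι → alternatingGroup (Fin 5))) :
    ∃ B : Finset ι, 2 ^ B.card ≤ K.index ∧
      ∀ i ∉ B, ∀ x : alternatingGroup (Fin 5), Pi.mulSingle i x ∈ K :=
  haveI : IsSimpleGroup (alternatingGroup (Fin 5)) := alternatingGroup.isSimpleGroup (by simp)
  support_fintype a5_noncomm K

end Pool.Agent.SYM
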